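import Pool.Agent.L0h16.PZ.Stm

/-!
# Project PZ, module PCOV: covering of the product cone
-/

set_option autoImplicit false
set_option linter.all false

open Pool.Agent.Y167 (cone Sys)
open Pool.Agent.N165.KM (IntL)
open Pool.Agent.L0h18.HZ (CCone)

namespace Pool.Agent.L0h34.PZ

open Pool.Agent.L0h16.PZ

section coneLemmas

variable {ρ : ℕ} (F : Finset (Fin ρ → ℝ))

theorem zero_mem_cone : (0 : Fin ρ → ℝ) ∈ cone F :=
  ⟨fun _ => 0, fun _ => le_rfl, by simp⟩

theorem add_mem_cone {x y : Fin ρ → ℝ} (hx : x ∈ cone F) (hy : y ∈ cone F) : x + y ∈ cone F := by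
  obtain ⟨c, hc, rfl⟩ := hx
  obtain ⟨e, he, rfl⟩ := hy
  refine ⟨fun a => c a + e a, fun a => add_nonneg (hc a) (he a), ?_⟩
  rw [← Finset.sum_add_distrib]
  exact Finset.sum_congr rfl fun a _ => (add_smul _ _ _).symm

open Classical in
theorem smul_mem_cone {b : Fin ρ → ℝ} (hb : b ∈ F) {t : ℝ} (ht : 0 ≤ t) : t • b ∈ cone F := by
  refine ⟨fun a => if a = b then t else 0, fun a => by dsimp only; split_ifs <;> simp [ht], ?_⟩
  rw [Finset.sum_eq_single b]
  · simp
  · intro a _ hab
    simp [hab]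
  · intro h
    exact absurd hb h

theorem sum_mem_cone {ι : Type*} (s : Finset ι) (f : ι → (Fin ρ → ℝ)) (h : ∀ i ∈ s, f i ∈ cone F) :
    ∑ i ∈ s, f i ∈ cone F := by
  classical
  induction s using Finset.induction_on with
  | empty => rw [Finset.sum_empty]; exact zero_mem_cone F
  | insert i s hi ih =>
    rw [Finset.sum_insert hi]
    exact add_mem_cone F (h i (Finset.mem_insert_self i s))
      (ih fun j hj => h j (Finset.mem_insert_of_mem hj))

end coneLemmas

/-- The effect of an element of `part`. -/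
theorem proj_part {ρ m : ℕ} {d : Fin m → ℕ} {J : ∀ i, (Fin (d i) → ℝ) →ₗ[ℝ] (Fin ρ → ℝ)}
    {Q : ∀ i, (Fin ρ → ℝ) →ₗ[ℝ] (Fin (d i) → ℝ)} (hD : DirSum J Q) {i : Fin m}
    {T : (Fin (d i) → ℝ) ≃ₗ[ℝ] (Fin (d i) → ℝ)} {U : (Fin ρ → ℝ) ≃ₗ[ℝ] (Fin ρ → ℝ)}
    (h1 : ∀ x, U (J i x) = J i (T x)) (h2 : ∀ j, j ≠ i → ∀ x, U (J j x) = J j x) (y : Fin ρ → ℝ) :
    Q i (U y) = T (Q i y) ∧ ∀ k, k ≠ i → Q k (U y) = Q k y := by
  have e : U y = ∑ j, U (J j (Q j y)) := by
    conv_lhs => rw [← hD.sum y]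
    rw [map_sum]
  constructor
  · rw [e, map_sum, Finset.sum_eq_single i]
    · rw [h1, hD.same]
    · intro j _ hj
      rw [h2 j hj, hD.other j i (Ne.symm hj)]
    · intro h
      exact absurd (Finset.mem_univ i) h
  · intro k hk
    rw [e, map_sum, Finset.sum_eq_single k]
    · rw [h2 k hk, hD.same]
    · intro j _ hj
      by_cases hji : j = i
      · subst hji
        rw [h1, hD.other j k hk]
      · rw [h2 j hji, hD.other j k (Ne.symm hj)]
    · intro h
      exact absurd (Finset.mem_univ k) h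

open Classical in
theorem t_PCOV : S_PCOV := by
  intro ρ m d J Q hD P C hC 𝒢 h1 hmul hcov
  obtain ⟨M, hM, hlat⟩ := hD.lat
  choose F hF hFcov using hcov
  have hM' : (0 : ℝ) < M := by exact_mod_cast hM
  have h0 : ∀ j, (0 : Fin (d j) → ℝ) ∈ C j := by
    intro j
    obtain ⟨hcc, x, hx⟩ := hC j
    have := hcc.smul 0 le_rfl x hx
    rwa [zero_smul] at this
  refine ⟨Finset.univ.biUnion fun i => (F i).image fun v => (M : ℝ) • J i v, ?_, ?_⟩
  · intro v hv
    rw [Finset.mem_biUnion] at hv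
    obtain ⟨i, -, hv⟩ := hv
    rw [Finset.mem_image] at hv
    obtain ⟨u, hu, rfl⟩ := hv
    refine ⟨hlat i u (hF i u hu).1, ?_⟩
    intro j
    rw [map_smul]
    by_cases hji : j = i
    · subst hji
      rw [hD.same]
      exact (hC j).1.smul _ hM'.le _ (hF j u hu).2
    · rw [hD.other i j hji, smul_zero]
      exact h0 j
  · intro x hx
    have key : ∀ s : Finset (Fin m), ∃ U ∈ 𝒢, (∀ i ∈ s, Q i (U x) ∈ cone (F i)) ∧
        ∀ i, i ∉ s → Q i (U x) = Q i x := by
      intro s
      induction s using Finset.induction_on with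
      | empty => exact ⟨1, h1, fun i hi => absurd hi (Finset.notMem_empty i), fun i _ => rfl⟩
      | insert i s hi ih =>
        obtain ⟨U, hU, hU1, hU2⟩ := ih
        have hPi : Q i (U x) ∈ P i := by
          rw [hU2 i hi]
          exact hx i
        obtain ⟨T, ⟨U', hU', g1, g2⟩, hT⟩ := hFcov i _ hPi
        obtain ⟨e1, e2⟩ := proj_part hD g1 g2 (U x)
        refine ⟨U' * U, hmul U' hU' U hU, ?_, ?_⟩
        · intro j hj
          show Q j (U' (U x)) ∈ cone (F j)
          by_cases hji : j = i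
          · subst hji
            rw [e1]
            exact hT
          · rw [e2 j hji]
            exact hU1 j (Finset.mem_of_mem_insert_of_ne hj hji)
        · intro j hj
          show Q j (U' (U x)) = Q j x
          have hji : j ≠ i := fun h => hj (h ▸ Finset.mem_insert_self i s)
          rw [e2 j hji, hU2 j fun h => hj (Finset.mem_insert_of_mem h)]
    obtain ⟨U, hU, hU1, -⟩ := key Finset.univ
    refine ⟨U, hU, ?_⟩
    rw [← hD.sum (U x)]
    apply sum_mem_cone
    intro i _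
    obtain ⟨c, hc, hce⟩ := hU1 i (Finset.mem_univ i)
    rw [hce, map_sum]
    apply sum_mem_cone
    intro a ha
    have e : J i (c a • a) = (c a / M) • ((M : ℝ) • J i a) := by
      rw [map_smul, smul_smul, div_mul_cancel₀ _ hM'.ne']
    rw [e]
    exact smul_mem_cone _ (Finset.mem_biUnion.2 ⟨i, Finset.mem_univ i, Finset.mem_image_of_mem _ ha⟩)
      (div_nonneg (hc a) hM'.le)

end Pool.Agent.L0h34.PZ
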